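import Pool.Agent.H79.Alg.Final

/-!
# Pretty good state transfer can be decided in polynomial time

The transition matrix and pretty good state transfer are defined in `Pool.Agent.H79.Walk`.
The model of computation is Mathlib's `TM2`: Turing machines with finitely many stacks and
finitely many internal states.
-/

open Matrix

namespace Pool.Agent.Results.MP_a03e85_lc.PolyTime

open Pool.Agent.H79

/-- An input of the decision problem: a finite simple graph with two distinct vertices. -/
structure Instance where
  /-- the number of vertices -/
  n : ℕ
  /-- the graph -/
  G : SimpleGraph (Fin n)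
  /-- the first vertex -/
  u : Fin n
  /-- the second vertex -/
  v : Fin n
  /-- the vertices are distinct -/
  ne : u ≠ v

open Classical in
/-- The rows which describe an input: the indicator rows of `u` and `v` followed by the rows of
the adjacency matrix. -/
noncomputable def rows (I : Instance) : List (List Bool) :=
  (List.ofFn fun j => decide (j = I.u)) :: (List.ofFn fun j => decide (j = I.v)) ::
    List.ofFn fun i => List.ofFn fun j => decide (I.G.Adj i j)

/-- The code of a bit. -/
def encodeBit (b : Bool) : List Bool := if b then [true, false, false] else [false]

/-- The code of a list: every item is preceded by the symbol `true`, and the symbol `false`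
marks the end. -/
def encodeList {β : Type} (f : β → List Bool) (l : List β) : List Bool :=
  l.flatMap (fun b => true :: f b) ++ [false]

/-- The input word of an instance. -/
noncomputable def encodeInstance (I : Instance) : List Bool :=
  encodeList (encodeList encodeBit) (rows I)

open Classical in
/-- The decision problem: does pretty good state transfer occur between the two vertices? -/
noncomputable def transfers (I : Instance) : Bool := decide (PGST I.G I.u I.v)

/-! ### The encoding is faithful -/

/-- Self-delimiting codes. -/
def IsPrefixCode {β : Type} (f : β → List Bool) : Prop :=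
  ∀ a b r s, f a ++ r = f b ++ s → a = b ∧ r = s

theorem encodeBit_code : IsPrefixCode encodeBit := by
  intro a b r s h
  cases a <;> cases b <;> simp_all [encodeBit]

theorem encodeList_code {β : Type} {f : β → List Bool} (hf : IsPrefixCode f) :
    IsPrefixCode (encodeList f) := by
  intro a
  induction a with
  | nil =>
    intro b r s h
    cases b with
    | nil => simpa [encodeList] using h
    | cons y b => simp [encodeList] at h
  | cons x a ih =>
    intro b r s h
    cases b with
    | nil => simp [encodeList] at h
    | cons y b =>
      simp only [encodeList, List.flatMap_cons, List.cons_append, List.append_assoc,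
        List.cons.injEq, true_and] at h
      obtain ⟨h1, h2⟩ := hf _ _ _ _ h
      have h3 := ih b r s (by simpa [encodeList] using h2)
      exact ⟨by rw [h1, h3.1], h3.2⟩

/-- Different inputs have different input words. -/
theorem encodeInstance_injective : Function.Injective encodeInstance := by
  classical
  intro I J h
  have h1 : rows I = rows J := by
    have := encodeList_code (encodeList_code encodeBit_code) (rows I) (rows J) [] []
      (by simpa [encodeInstance] using h)
    exact this.1
  obtain ⟨n, G, u, v, huv⟩ := I
  obtain ⟨m, H, u', v', huv'⟩ := J
  simp only [rows, List.cons.injEq] at h1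
  obtain ⟨hu, hv, hG⟩ := h1
  have hnm : n = m := by
    have := congrArg List.length hu
    simpa using this
  subst hnm
  have hu1 := congrFun (List.ofFn_injective hu) u
  have hv1 := congrFun (List.ofFn_injective hv) v
  have hG1 := List.ofFn_injective hG
  have hu2 : u = u' := by simpa using hu1
  have hv2 : v = v' := by simpa using hv1
  have hG2 : G = H := by
    ext i j
    have := congrFun (List.ofFn_injective (congrFun hG1 i)) j
    rw [decide_eq_decide] at this
    exact this
  subst hu2 hv2 hG2
  rfl

theorem length_encodeList_le {β : Type} {f : β → List Bool} {B : ℕ} {l : List β}
    (h : ∀ b ∈ l, (f b).length ≤ B) : (encodeList f l).length ≤ l.length * (B + 1) + 1 := by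
  induction l with
  | nil => simp [encodeList]
  | cons x l ih =>
    have h1 := ih fun b hb => h b (by simp [hb])
    have h2 := h x (by simp)
    simp only [encodeList, List.flatMap_cons, List.cons_append, List.append_assoc,
      List.length_cons, List.length_append] at h1 ⊢
    have h3 : (l.length + 1) * (B + 1) = l.length * (B + 1) + (B + 1) := by ring
    omega

/-- The length of the input word is quadratic in the number of vertices. -/
theorem length_encodeInstance_le (I : Instance) :
    (encodeInstance I).length ≤ 4 * (I.n + 2) ^ 2 := by
  classical
  have hbit : ∀ b, (encodeBit b).length ≤ 3 := by intro b; cases b <;> simp [encodeBit]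
  have hrow : ∀ r ∈ rows I, r.length = I.n := by
    intro r hr
    simp only [rows, List.mem_cons, List.mem_ofFn] at hr
    rcases hr with rfl | rfl | ⟨i, rfl⟩ <;> simp
  have h1 : ∀ r ∈ rows I, (encodeList encodeBit r).length ≤ I.n * 4 + 1 := by
    intro r hr
    have := length_encodeList_le (f := encodeBit) (l := r) (fun b _ => hbit b)
    rw [hrow r hr] at this
    exact this
  have h2 := length_encodeList_le h1
  have h3 : (rows I).length = I.n + 2 := by simp [rows]
  rw [h3] at h2
  unfold encodeInstance
  have h4 : (I.n + 2) * (I.n * 4 + 1 + 1) + 1 ≤ 4 * (I.n + 2) ^ 2 := by nlinarith
  exact h2.trans h4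

/-! ### The theorem -/

theorem encodeBit_eq (b : Bool) : encodeBit b = Cx.cd b := by
  cases b <;> rfl

theorem encodeList_eq {β : Type} [Cx.Enc β] {f : β → List Bool} (hf : ∀ b, f b = Cx.cd b)
    (l : List β) : encodeList f l = Cx.cd l := by
  induction l with
  | nil => rfl
  | cons x l ih =>
    have h1 : Cx.cd (x :: l) = true :: (Cx.cd x ++ Cx.cd l) := rfl
    rw [h1, ← ih, ← hf]
    simp [encodeList]

/-- There is a Turing machine which decides, given a graph with `n` vertices and two distinct
vertices `u`, `v`, whether pretty good state transfer occurs between `u` and `v`, in a number of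
steps which is bounded by a polynomial in `n`. -/
theorem result :
    ∃ (M : Turing.TM2ComputableInPolyTime encodeInstance Computability.encodeBool transfers)
      (q : Polynomial ℕ), ∀ I : Instance, M.time.eval (encodeInstance I).length ≤ q.eval I.n := by
  classical
  obtain ⟨M⟩ := Cx.toTM2_bool (ea := encodeInstance) (g := transfers) Cx.PT.decPG rows
    (fun I => encodeList_eq (encodeList_eq encodeBit_eq) _) (by
      intro I
      rw [Bool.eq_iff_iff]
      unfold transfers
      rw [decide_eq_true_eq]
      symm
      refine Cx.decPG_spec I.G I.ne (by simp [rows]) rfl rfl ?_
      intro i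
      have h1 : (rows I).getD ((i : ℕ) + 2) [] =
          (List.ofFn fun i => List.ofFn fun j => decide (I.G.Adj i j)).getD i [] := rfl
      rw [h1, Cx.getD_ofFn, dif_pos i.2])
  refine ⟨M, M.time.comp (4 * (Polynomial.X + 2) ^ 2), fun I => ?_⟩
  rw [Polynomial.eval_comp]
  refine Cx.eval_mono _ ?_
  simpa using length_encodeInstance_le I

end Pool.Agent.Results.MP_a03e85_lc.PolyTime
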