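import Pool.Agent.H79.Criterion

/-!
# Pretty good state transfer is a linear problem over `ℚ` with parity conditions

The coefficients of the linear system are normalised traces of products of two eigenvalues, that
is, they are read off from the minimal polynomials of single algebraic numbers of degree at most
the square of the number of vertices.
-/

open Matrix

namespace Pool.Agent.Results.MP_a03e85_lc.TraceCriterion

open Pool.Agent.H79

variable {V : Type*} [Fintype V] [DecidableEq V]

/-- The eigenvalues of the adjacency matrix which have an eigenvector not orthogonal to `a`. -/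
noncomputable def suppFinset (G : SimpleGraph V) [DecidableRel G.Adj] (a : V → ℝ) : Finset ℝ :=
  (specSupport_finite (G.adjMatrix ℝ) a).toFinset

theorem mem_suppFinset (G : SimpleGraph V) [DecidableRel G.Adj] (a : V → ℝ) (θ : ℝ) :
    θ ∈ suppFinset G a ↔ ∃ y : V → ℝ, G.adjMatrix ℝ *ᵥ y = θ • y ∧ y ⬝ᵥ a ≠ 0 := by
  rw [suppFinset, Set.Finite.mem_toFinset]
  rfl

/-- Pretty good state transfer occurs between `u` and `v` iff a linear system over `ℚ` given by
normalised traces has a solution which is an even integer on the support of `e_u + e_v` and an odd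
integer on the support of `e_u - e_v`. -/
theorem result (G : SimpleGraph V) [DecidableRel G.Adj] (u v : V) :
    PGST G u v ↔ ∃ (z z' : ℝ → ℚ) (c : ℚ),
      (∀ x ∈ suppFinset G (Pi.single u 1 + Pi.single v 1), ∃ k : ℤ,
        ∑ y ∈ suppFinset G (Pi.single u 1 + Pi.single v 1), ntr (x * y) * z y +
        ∑ y ∈ suppFinset G (Pi.single u 1 - Pi.single v 1), ntr (x * y) * z' y + c = 2 * k) ∧
      (∀ x ∈ suppFinset G (Pi.single u 1 - Pi.single v 1), ∃ k : ℤ,
        ∑ y ∈ suppFinset G (Pi.single u 1 + Pi.single v 1), ntr (x * y) * z y +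
        ∑ y ∈ suppFinset G (Pi.single u 1 - Pi.single v 1), ntr (x * y) * z' y + c =
          2 * k + 1) := by
  classical
  set S := suppFinset G (Pi.single u 1 + Pi.single v 1) with hS
  set T := suppFinset G (Pi.single u 1 - Pi.single v 1) with hT
  have hSr : specSupport (G.adjMatrix ℝ) (Pi.single u 1 + Pi.single v 1) =
      Set.range (fun x : S => (x : ℝ)) := by
    rw [Subtype.range_coe_subtype, hS]
    ext x
    exact (mem_suppFinset G _ x).symm
  have hTr : specSupport (G.adjMatrix ℝ) (Pi.single u 1 - Pi.single v 1) =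
      Set.range (fun x : T => (x : ℝ)) := by
    rw [Subtype.range_coe_subtype, hT]
    ext x
    exact (mem_suppFinset G _ x).symm
  have hSt : ∀ x : S, TotallyReal (x : ℝ) := fun x =>
    totallyReal_of_mem_specSupport G (by rw [hSr]; exact ⟨x, rfl⟩)
  have hTt : ∀ x : T, TotallyReal (x : ℝ) := fun x =>
    totallyReal_of_mem_specSupport G (by rw [hTr]; exact ⟨x, rfl⟩)
  rw [PGST_iff_phaseSet, hSr, hTr, phaseSet_iff_relCond, relCond_iff_dual _ _ hSt hTt]
  have hsumS : ∀ (F : ℝ → ℚ), ∑ i : S, F (i : ℝ) = ∑ y ∈ S, F y := fun F =>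
    Finset.sum_coe_sort S F
  have hsumT : ∀ (F : ℝ → ℚ), ∑ i : T, F (i : ℝ) = ∑ y ∈ T, F y := fun F =>
    Finset.sum_coe_sort T F
  constructor
  · rintro ⟨z, z', c, h1, h2⟩
    set Z : ℝ → ℚ := fun y => if h : y ∈ S then z ⟨y, h⟩ else 0 with hZ
    set Z' : ℝ → ℚ := fun y => if h : y ∈ T then z' ⟨y, h⟩ else 0 with hZ'
    have hZ1 : ∀ i : S, Z (i : ℝ) = z i := fun i => by simp [hZ]
    have hZ2 : ∀ i : T, Z' (i : ℝ) = z' i := fun i => by simp [hZ']
    refine ⟨Z, Z', c, fun x hx => ?_, fun x hx => ?_⟩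
    · obtain ⟨k, hk⟩ := h1 ⟨x, hx⟩
      refine ⟨k, ?_⟩
      rw [← hsumS (fun y => ntr (x * y) * Z y), ← hsumT (fun y => ntr (x * y) * Z' y), ← hk]
      simp only [hZ1, hZ2]
    · obtain ⟨k, hk⟩ := h2 ⟨x, hx⟩
      refine ⟨k, ?_⟩
      rw [← hsumS (fun y => ntr (x * y) * Z y), ← hsumT (fun y => ntr (x * y) * Z' y), ← hk]
      simp only [hZ1, hZ2]
  · rintro ⟨z, z', c, h1, h2⟩
    refine ⟨fun i => z i, fun i => z' i, c, fun x => ?_, fun x => ?_⟩
    · obtain ⟨k, hk⟩ := h1 x x.2
      refine ⟨k, ?_⟩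
      rw [hsumS (fun y => ntr ((x : ℝ) * y) * z y), hsumT (fun y => ntr ((x : ℝ) * y) * z' y), hk]
    · obtain ⟨k, hk⟩ := h2 x x.2
      refine ⟨k, ?_⟩
      rw [hsumS (fun y => ntr ((x : ℝ) * y) * z y), hsumT (fun y => ntr ((x : ℝ) * y) * z' y), hk]

end Pool.Agent.Results.MP_a03e85_lc.TraceCriterion
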